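import Mathlib

/-!
# Project GM, job ORD: automorphisms whose order has no prime divisor in common with `p ^ j - 1`
-/

set_option autoImplicit false

namespace Pool.Agent.V5helper6.GM

theorem end_pow_succ {G : Type} [Monoid G] (f : Monoid.End G) (k : ℕ) (x : G) :
    (f ^ (k + 1)) x = (f ^ k) (f x) := by
  rw [pow_succ]; rfl

theorem fend_pow {G : Type} [Monoid G] (f : Monoid.End G) (g : Function.End G)
    (h : ∀ x, g x = f x) (k : ℕ) (x : G) : (g ^ k) x = (f ^ k) x := by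
  induction k generalizing x with
  | zero => rfl
  | succ k ih =>
    rw [end_pow_succ, ← ih, ← h, pow_succ]
    rfl

/-- An endomorphism of finite order of a group of order `p ^ n` is trivial, if its order has only
prime divisors `l ≠ p` which do not divide `p ^ j - 1`, `0 < j < r`, `n < r`. -/
theorem end_eq_one {p : ℕ} [hp : Fact p.Prime] {X : Type} [Group X] [Finite X] {n r : ℕ}
    (hX : Nat.card X = p ^ n) (hn : n < r) (ψ : Monoid.End X) {o : ℕ} (ho : 0 < o)
    (hψ : ψ ^ o = 1)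
    (hl : ∀ l : ℕ, l.Prime → l ∣ o → l ≠ p ∧ ∀ j : ℕ, 0 < j → j < r → ¬ l ∣ p ^ j - 1) :
    ψ = 1 := by
  classical
  by_contra hne
  have hm0 : orderOf ψ ≠ 0 := by
    rw [orderOf_ne_zero_iff, isOfFinOrder_iff_pow_eq_one]
    exact ⟨o, ho, hψ⟩
  have hm1 : orderOf ψ ≠ 1 := fun h => hne (orderOf_eq_one_iff.1 h)
  obtain ⟨l, hlp, hlm⟩ := Nat.exists_prime_and_dvd hm1
  have hlo : l ∣ o := hlm.trans (orderOf_dvd_of_pow_eq_one hψ)
  obtain ⟨hlne, hlj⟩ := hl l hlp hlo
  have : Fact l.Prime := ⟨hlp⟩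
  set ε : Monoid.End X := ψ ^ (orderOf ψ / l) with hε
  have hεo : orderOf ε = l := orderOf_pow_orderOf_div hm0 hlm
  have hε1 : ε ≠ 1 := by
    intro h
    rw [h, orderOf_one] at hεo
    exact hlp.one_lt.ne hεo
  have hεl : ε ^ l = 1 := by rw [← hεo]; exact pow_orderOf_eq_one ε
  have : Fintype X := Fintype.ofFinite X
  -- the fixed points
  let F : Subgroup X := MonoidHom.eqLocus (ε : X →* X) (MonoidHom.id X)
  have hF : ∀ x, x ∈ F ↔ ε x = x := fun x => Iff.rfl
  let g : Function.End X := fun x => ε x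
  have hend : g ^ l ^ 1 = 1 := by
    funext x
    rw [pow_one, fend_pow ε g (fun _ => rfl), hεl]
    rfl
  have hmod := Equiv.Perm.card_fixedPoints_modEq hend
  have hcard : Fintype.card (Function.fixedPoints g) =
      Nat.card F := by
    rw [← Nat.card_eq_fintype_card]
    rfl
  rw [hcard, ← Nat.card_eq_fintype_card, hX] at hmod
  have hdvd : Nat.card F ∣ p ^ n := hX ▸ Subgroup.card_subgroup_dvd_card F
  obtain ⟨f, hfn, hf⟩ := (Nat.dvd_prime_pow hp.out).1 hdvd
  have hflt : f < n := by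
    rcases hfn.lt_or_eq with h | h
    · exact h
    · exfalso
      have h1 : F = ⊤ := by
        apply Subgroup.eq_top_of_card_eq
        rw [hf, h, hX]
      apply hε1
      ext x
      have h2 : x ∈ F := by rw [h1]; exact Subgroup.mem_top x
      exact h2
  rw [hf] at hmod
  have h3 : l ∣ p ^ n - p ^ f :=
    (Nat.modEq_iff_dvd' (Nat.pow_le_pow_right hp.out.pos hfn)).1 hmod.symm
  have h4 : p ^ n - p ^ f = p ^ f * (p ^ (n - f) - 1) := by
    rw [Nat.mul_sub, mul_one, ← pow_add, Nat.add_sub_cancel' hfn]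
  rw [h4] at h3
  rcases hlp.dvd_mul.1 h3 with h5 | h5
  · exact hlne ((Nat.prime_dvd_prime_iff_eq hlp hp.out).1 (hlp.dvd_of_dvd_pow h5))
  · exact hlj (n - f) (by omega) (by omega) h5

theorem ordCore (p : ℕ) [Fact p.Prime] (V : Type) [CommGroup V] [Finite V] (δ : MulAut V)
    (B' B : Subgroup V) (_hB : B' ≤ B) (h' : ∀ v ∈ B', δ v ∈ B') (h : ∀ v ∈ B, δ v ∈ B)
    (n r : ℕ) (hn : B'.relIndex B = p ^ n) (hr : n < r)
    (hl : ∀ l : ℕ, l.Prime → l ∣ orderOf δ → l ≠ p ∧ ∀ j : ℕ, 0 < j → j < r → ¬ l ∣ p ^ j - 1) :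
    ∀ v ∈ B, δ v * v⁻¹ ∈ B' := by
  classical
  let δB : Monoid.End B := ((δ : V ≃* V).toMonoidHom.comp B.subtype).codRestrict B fun v => h v v.2
  have hδB : ∀ v : B, ((δB v : B) : V) = δ v := fun v => rfl
  let K : Subgroup B := B'.subgroupOf B
  have hK : K ≤ K.comap δB := fun v hv => h' _ hv
  let ψ : Monoid.End (B ⧸ K) := QuotientGroup.map K K δB hK
  have hψm : ∀ v : B, ψ (v : B ⧸ K) = ((δB v : B) : B ⧸ K) := fun v => rfl
  have hpow : ∀ k : ℕ, ∀ v : B, (ψ ^ k) (v : B ⧸ K) =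
      ((δB ^ k) v : B) := by
    intro k
    induction k with
    | zero => intro v; rfl
    | succ k ih =>
      intro v
      rw [end_pow_succ, end_pow_succ]
      exact ih (δB v)
  have hpowB : ∀ k : ℕ, ∀ v : B, (((δB ^ k) v : B) : V) = (δ ^ k) v := by
    intro k
    induction k with
    | zero => intro v; rfl
    | succ k ih =>
      intro v
      rw [end_pow_succ, pow_succ]
      exact ih (δB v)
  have ho : 0 < orderOf δ := orderOf_pos δ
  have hψo : ψ ^ orderOf δ = 1 := by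
    refine MonoidHom.ext fun x => ?_
    obtain ⟨v, rfl⟩ := QuotientGroup.mk_surjective x
    have h1 : ((δB ^ orderOf δ) v : B) = v := by
      apply Subtype.ext
      rw [hpowB, pow_orderOf_eq_one]
      rfl
    have h2 := hpow (orderOf δ) v
    rw [h1] at h2
    exact h2
  have hcard : Nat.card (B ⧸ K) = p ^ n := hn
  have h1 := end_eq_one hcard hr ψ ho hψo hl
  intro v hv
  have h2 : ψ ((⟨v, hv⟩ : B) : B ⧸ K) = ((⟨v, hv⟩ : B) : B ⧸ K) :=
    congrArg (fun f : Monoid.End (B ⧸ K) => f ((⟨v, hv⟩ : B) : B ⧸ K)) h1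
  rw [hψm] at h2
  have h3 := QuotientGroup.eq.1 h2.symm
  have h4 : (v : V)⁻¹ * δ v ∈ B' := h3
  rwa [mul_comm]

end Pool.Agent.V5helper6.GM
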