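import Pool.Agent.V5helper60.GM.Stm
import Pool.Agent.V5helper6.GM.ORDcore

/-!
# Project GM, job ORD
-/

set_option autoImplicit false

namespace Pool.Agent.V5helper6.GM

open Pool.Agent.V5helper60.GM

theorem t_ORD : S_ORD := by
  intro p _ V _ _ δ B' B hB h' h n r hn hr hl v hv
  exact ordCore p V δ B' B hB h' h n r hn hr hl v hv

end Pool.Agent.V5helper6.GM
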